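import Pool.Agent.H.MP_4f6fd6_an.Defs

set_option autoImplicit false

namespace Pool.Agent.H.MP_4f6fd6_an

open MeasureTheory ComplexConjugate Filter Topology
open scoped ENNReal InnerProductSpace

instance : CompleteSpace L2 := inferInstanceAs (CompleteSpace (Lp ℂ 2 μ))

instance : CompleteSpace H2 := Submodule.instOrthogonalCompleteSpace _

instance : CompleteSpace Hd := inferInstanceAs (CompleteSpace H2)

theorem rep_add (f g : L2) : rep (f + g) =ᵐ[μ] fun x => rep f x + rep g x :=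
  Lp.coeFn_add (E := ℂ) f g

theorem rep_sub (f g : L2) : rep (f - g) =ᵐ[μ] fun x => rep f x - rep g x :=
  Lp.coeFn_sub (E := ℂ) f g

theorem rep_smul (c : ℂ) (f : L2) : rep (c • f) =ᵐ[μ] fun x => c * rep f x :=
  Lp.coeFn_smul (E := ℂ) c f

theorem rep_ext {f g : L2} (h : rep f =ᵐ[μ] rep g) : f = g := Lp.ext (E := ℂ) h

theorem inner_eq (f g : L2) : ⟪f, g⟫_ℂ = ∫ x, conj (rep f x) * rep g x ∂μ := by
  refine (L2.inner_def (𝕜 := ℂ) (E := ℂ) f g).trans ?_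
  simp only [RCLike.inner_apply, mul_comm]
  rfl

theorem int_mul (f g : L2) : Integrable (fun x => conj (rep f x) * rep g x) μ := by
  have := L2.integrable_inner (𝕜 := ℂ) (E := ℂ) f g
  simp only [RCLike.inner_apply] at this
  simp only [mul_comm]
  exact this

theorem norm_le {f g : L2} {c : ℝ} (h : ∀ᵐ x ∂μ, ‖rep f x‖ ≤ c * ‖rep g x‖) : ‖f‖ ≤ c * ‖g‖ :=
  Lp.norm_le_mul_norm_of_ae_le_mul (E := ℂ) (F := ℂ) h

theorem rep_e (n : ℤ) : rep (e n) =ᵐ[μ] fourier n := coeFn_fourierLp 2 n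

theorem e_on : Orthonormal ℂ e := orthonormal_fourier

/-- bounded measurable -/
abbrev Bd (φ : T → ℂ) : Prop := MemLp φ ⊤ μ

theorem Bd.of_cont {φ : T → ℂ} (h : Continuous φ) : Bd φ := by
  obtain ⟨C, hC⟩ := isCompact_univ.exists_bound_of_continuousOn h.continuousOn
  exact memLp_top_of_bound h.aestronglyMeasurable C (.of_forall fun x => hC x trivial)

theorem Bd.mul {φ ψ : T → ℂ} (h : Bd φ) (h' : Bd ψ) : Bd fun x => φ x * ψ x :=
  MemLp.mul (r := ⊤) h' h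

theorem Bd.conj {φ : T → ℂ} (h : Bd φ) : Bd fun x => conj (φ x) := h.star

open Classical in
/-- multiplication operator -/
noncomputable def M (φ : T → ℂ) : L2 →L[ℂ] L2 :=
  if h : Bd φ then (ContinuousLinearMap.mul ℂ ℂ).holderL μ ⊤ 2 2 (h.toLp φ) else 0

theorem rep_M {φ : T → ℂ} (h : Bd φ) (f : L2) : rep (M φ f) =ᵐ[μ] fun x => φ x * rep f x := by
  rw [M, dif_pos h]
  refine ((ContinuousLinearMap.mul ℂ ℂ).coeFn_holder (r := 2) (h.toLp φ) f).trans ?_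
  filter_upwards [h.coeFn_toLp] with x hx
  rw [hx]
  rfl

theorem M_adj {φ : T → ℂ} (h : Bd φ) (f g : L2) :
    ⟪M φ f, g⟫_ℂ = ⟪f, M (fun x => conj (φ x)) g⟫_ℂ := by
  rw [inner_eq, inner_eq]
  refine integral_congr_ae ?_
  filter_upwards [rep_M h f, rep_M h.conj g] with x h1 h2
  rw [h1, h2, map_mul]
  ring

theorem M_mul {φ ψ : T → ℂ} (h : Bd φ) (h' : Bd ψ) (f : L2) :
    M (fun x => φ x * ψ x) f = M φ (M ψ f) := by
  refine rep_ext ?_
  filter_upwards [rep_M (h.mul h') f, rep_M h (M ψ f), rep_M h' f] with x h1 h2 h3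
  rw [h1, h2, h3, mul_assoc]

theorem M_one (f : L2) : M (fun _ => 1) f = f := by
  refine rep_ext ?_
  filter_upwards [rep_M (Bd.of_cont (continuous_const (y := (1 : ℂ)))) f] with x h1
  rw [h1, one_mul]

theorem norm_M {φ : T → ℂ} (h : Bd φ) (h1 : ∀ᵐ x ∂μ, ‖φ x‖ = 1) (f : L2) : ‖M φ f‖ = ‖f‖ := by
  refine le_antisymm ?_ ?_ <;> refine (norm_le (c := 1) ?_).trans_eq (one_mul _) <;>
    filter_upwards [rep_M h f, h1] with x h2 h3 <;> rw [h2, norm_mul, h3] <;> simp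

/-- the coordinate -/
noncomputable def z (x : T) : ℂ := fourier 1 x

theorem z_cont : Continuous z := (fourier 1).continuous

theorem z_norm (x : T) : ‖z x‖ = 1 := by rw [z, fourier_apply, Circle.norm_coe]

theorem z_bd : Bd z := .of_cont z_cont

theorem z_e (n : ℤ) : M z (e n) = e (n + 1) := by
  refine rep_ext ?_
  filter_upwards [rep_M z_bd (e n), rep_e n, rep_e (n + 1)] with x h1 h2 h3
  rw [h1, h2, h3, fourier_add, mul_comm, z]

theorem z_inner (f g : L2) : ⟪M z f, M z g⟫_ℂ = ⟪f, g⟫_ℂ := by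
  rw [M_adj z_bd, ← M_mul z_bd.conj z_bd]
  simp only [Complex.conj_mul', z_norm]
  simp [M_one]

theorem mem_H2 {f : L2} : f ∈ H2 ↔ ∀ n : ℤ, n < 0 → ⟪e n, f⟫_ℂ = 0 := by
  rw [H2, Submodule.mem_orthogonal]
  refine ⟨fun h n hn => h _ (Submodule.subset_span ⟨n, hn, rfl⟩), fun h u hu => ?_⟩
  induction hu using Submodule.span_induction with
  | mem _ hu =>
    obtain ⟨n, hn, rfl⟩ := hu
    exact h n hn
  | zero => simp
  | add a b _ _ i j => rw [inner_add_left, i, j, add_zero]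
  | smul c a _ i => rw [inner_smul_left, i, mul_zero]

theorem e0_mem : e 0 ∈ H2 := mem_H2.2 fun _ hn => e_on.2 hn.ne

theorem e_z (n : ℤ) (g : L2) : ⟪e n, M z g⟫_ℂ = ⟪e (n - 1), g⟫_ℂ := by
  rw [← z_inner (e (n - 1)), z_e, sub_add_cancel]

theorem z_mem {f : L2} (h : f ∈ H2) : M z f ∈ H2 :=
  mem_H2.2 fun n hn => by rw [e_z]; exact mem_H2.1 h _ (by omega)

theorem rec_mem {g h : L2} {c : ℂ} (hc : ‖c‖ < 1) (hh : h ∈ H2) (e1 : g = h + c • M z g) :
    g ∈ H2 := by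
  have key : ∀ j : ℕ, ∀ n : ℤ, n < 0 → ‖⟪e n, g⟫_ℂ‖ ≤ ‖c‖ ^ j * ‖g‖ := by
    intro j
    induction j with
    | zero => exact fun n _ => (norm_inner_le_norm _ _).trans (by simp [e_on.1 n])
    | succ j ih =>
      intro n hn
      have : ⟪e n, g⟫_ℂ = c * ⟪e (n - 1), g⟫_ℂ := by
        conv_lhs => rw [e1, inner_add_right, mem_H2.1 hh n hn, inner_smul_right, e_z, zero_add]
      rw [this, norm_mul, pow_succ', mul_assoc]
      exact mul_le_mul_of_nonneg_left (ih _ (by omega)) (norm_nonneg _)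
  refine mem_H2.2 fun n hn => norm_le_zero_iff.1 ?_
  refine ge_of_tendsto' (x := atTop) ?_ fun j => key j n hn
  simpa using (tendsto_pow_atTop_nhds_zero_of_lt_one (norm_nonneg c) hc).mul_const ‖g‖

theorem isHinf {φ : T → ℂ} (h : Bd φ) (h1 : M φ (e 0) ∈ H2) : IsHinf φ := by
  refine ⟨h, fun n hn => ?_⟩
  rw [← mem_H2.1 h1 n hn, inner_eq, fourierCoeff]
  refine integral_congr_ae ?_
  filter_upwards [rep_M h (e 0), rep_e 0, rep_e n] with x h2 h3 h4
  rw [h2, h3, h4, fourier_neg]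
  simp

/-- the Riesz projection -/
noncomputable def P : L2 →L[ℂ] L2 := H2.starProjection

theorem P_mem (f : L2) : P f ∈ H2 := H2.starProjection_apply_mem f

theorem P_inner {h : L2} (hh : h ∈ H2) (w : L2) : ⟪h, P w⟫_ℂ = ⟪h, w⟫_ℂ := by
  rw [P, ← H2.inner_starProjection_left_eq_right, H2.starProjection_eq_self_iff.2 hh]

theorem P_le (f : L2) : ‖P f‖ ≤ ‖f‖ := H2.norm_starProjection_apply_le f

theorem P_eq {f g : L2} (h : ∀ u ∈ H2, ⟪u, f⟫_ℂ = ⟪u, g⟫_ℂ) : P f = P g := by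
  have m := sub_mem (P_mem f) (P_mem g)
  rw [← sub_eq_zero, ← inner_self_eq_zero (𝕜 := ℂ), inner_sub_right, P_inner m, P_inner m, h _ m,
    sub_self]

section factor

variable {l : ℂ}

/-- Szego kernel -/
noncomputable def kf (l : ℂ) (x : T) : ℂ := (1 - conj l * z x)⁻¹

theorem den_ne (hl : ‖l‖ < 1) (x : T) : 1 - conj l * z x ≠ 0 := by
  intro h
  have := congrArg norm (sub_eq_zero.1 h)
  simp [z_norm] at this
  exact hl.ne' this

theorem kf_cont (hl : ‖l‖ < 1) : Continuous (kf l) :=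
  (continuous_const.sub (continuous_const.mul z_cont)).inv₀ (den_ne hl)

theorem kf_rec (hl : ‖l‖ < 1) (h : L2) : M (kf l) h = h + conj l • M z (M (kf l) h) := by
  refine rep_ext ?_
  have b := Bd.of_cont (kf_cont hl)
  filter_upwards [rep_M b h, rep_add h (conj l • M z (M (kf l) h)),
    rep_smul (conj l) (M z (M (kf l) h)), rep_M z_bd (M (kf l) h)] with x h1 h2 h3 h4
  rw [h2, h3, h4, h1, kf]
  have := den_ne hl x
  field_simp
  ring

theorem kf_mem (hl : ‖l‖ < 1) {h : L2} (hh : h ∈ H2) : M (kf l) h ∈ H2 :=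
  rec_mem (by simpa using hl) hh (kf_rec hl h)

/-- kernel as an element -/
noncomputable def k (l : ℂ) : L2 := M (kf l) (e 0)

theorem k_mem (hl : ‖l‖ < 1) : k l ∈ H2 := kf_mem hl e0_mem

theorem rep_k (hl : ‖l‖ < 1) : rep (k l) =ᵐ[μ] kf l := by
  filter_upwards [rep_M (.of_cont (kf_cont hl)) (e 0), rep_e 0] with x h1 h2
  rw [k, h1, h2]
  simp

theorem k_norm (hl : ‖l‖ < 1) : (1 - ‖l‖ ^ 2) * ‖k l‖ ^ 2 = 1 := by
  have h1 : ⟪e 0, conj l • M z (k l)⟫_ℂ = 0 := by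
    rw [inner_smul_right, e_z, mem_H2.1 (k_mem hl) _ (by norm_num), mul_zero]
  have h2 := norm_add_sq_eq_norm_sq_add_norm_sq_of_inner_eq_zero _ _ h1
  rw [show e 0 + conj l • M z (k l) = k l from (kf_rec hl (e 0)).symm, norm_smul,
    norm_M z_bd (.of_forall z_norm), e_on.1 0, Complex.norm_conj] at h2
  nlinarith

/-- Blaschke factor -/
noncomputable def bf (u l : ℂ) (x : T) : ℂ := u * (z x - l) * kf l x

theorem bf_cont (u : ℂ) (hl : ‖l‖ < 1) : Continuous (bf u l) :=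
  (continuous_const.mul (z_cont.sub continuous_const)).mul (kf_cont hl)

theorem den_norm (l : ℂ) (x : T) : ‖1 - conj l * z x‖ = ‖z x - l‖ := by
  have : 1 - conj l * z x = conj (z x - l) * z x := by
    rw [map_sub, sub_mul, Complex.conj_mul', z_norm]
    simp
  rw [this, norm_mul, z_norm, mul_one, Complex.norm_conj]

theorem bf_norm {u : ℂ} (hu : ‖u‖ = 1) (hl : ‖l‖ < 1) (x : T) : ‖bf u l x‖ = 1 := by
  rw [bf, norm_mul, norm_mul, hu, one_mul, kf, norm_inv, ← den_norm,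
    mul_inv_cancel₀ (norm_ne_zero_iff.2 (den_ne hl x))]

theorem bf_eq (u : ℂ) (hl : ‖l‖ < 1) (h : L2) :
    M (bf u l) h = u • (M z (M (kf l) h) - l • M (kf l) h) := by
  refine rep_ext ?_
  have b := Bd.of_cont (kf_cont hl)
  filter_upwards [rep_M b h, rep_M (.of_cont (bf_cont u hl)) h,
    rep_smul u (M z (M (kf l) h) - l • M (kf l) h), rep_sub (M z (M (kf l) h)) (l • M (kf l) h),
    rep_smul l (M (kf l) h), rep_M z_bd (M (kf l) h)] with x h1 h2 h3 h4 h5 h6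
  rw [h2, h3, h4, h5, h6, h1, bf]
  ring

theorem bf_mem (u : ℂ) (hl : ‖l‖ < 1) {h : L2} (hh : h ∈ H2) : M (bf u l) h ∈ H2 := by
  rw [bf_eq u hl]
  exact H2.smul_mem _ (sub_mem (z_mem (kf_mem hl hh)) (H2.smul_mem _ (kf_mem hl hh)))

theorem bf_orth (u : ℂ) (hl : ‖l‖ < 1) {h : L2} (hh : h ∈ H2) : ⟪k l, M (bf u l) h⟫_ℂ = 0 := by
  have : ⟪k l, M z (M (kf l) h)⟫_ℂ = l * ⟪k l, M (kf l) h⟫_ℂ := by
    conv_lhs => rw [k, kf_rec hl, inner_add_left, inner_smul_left, z_inner, e_z,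
      mem_H2.1 (kf_mem hl hh) _ (by norm_num), zero_add, Complex.conj_conj]
    rfl
  rw [bf_eq u hl, inner_smul_right, inner_sub_right, this, inner_smul_right, sub_self, mul_zero]

theorem bf_conj_mem (u : ℂ) (hl : ‖l‖ < 1) {h : L2} (hh : h ∈ H2) (h0 : ⟪k l, h⟫_ℂ = 0) :
    M (fun x => conj (bf u l x)) h ∈ H2 := by
  have b := Bd.of_cont (kf_cont hl)
  have zt : ∀ n, M z (M (kf l) (e n)) = M (kf l) (e (n + 1)) := by
    intro n
    rw [← z_e, ← M_mul z_bd b, ← M_mul b z_bd]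
    simp only [mul_comm]
  have t : ∀ n : ℤ, n ≤ 0 → ⟪M (kf l) (e n), h⟫_ℂ = 0 := by
    intro n hn
    induction n, hn using Int.leInductionDown with
    | base => exact h0
    | pred n hn ih =>
      rw [kf_rec hl, zt, sub_add_cancel, inner_add_left, inner_smul_left, ih,
        mem_H2.1 hh _ (by omega)]
      simp
  refine mem_H2.2 fun n hn => ?_
  rw [← M_adj (.of_cont (bf_cont u hl)), bf_eq u hl, inner_smul_left, inner_sub_left,
    inner_smul_left, zt, t _ (by omega), t _ hn.le]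
  simp

theorem ex_orth (p y : L2) : ∃ c : ℂ, ⟪p, y - c • p⟫_ℂ = 0 ∧ ‖c‖ * ‖p‖ ^ 2 = ‖⟪p, y⟫_ℂ‖ := by
  refine ⟨⟪p, y⟫_ℂ / ⟪p, p⟫_ℂ, ?_, ?_⟩ <;> rcases eq_or_ne p 0 with rfl | h
  · simp
  · rw [inner_sub_right, inner_smul_right, div_mul_cancel₀ _ (inner_self_ne_zero.2 h), sub_self]
  · simp
  · rw [norm_div, inner_self_eq_norm_sq_to_K]
    have := norm_ne_zero_iff.2 h
    simp only [norm_pow, Complex.coe_algebraMap, Complex.norm_real, norm_norm]
    field_simp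

theorem step {u : ℂ} (hu : ‖u‖ = 1) (hl : ‖l‖ < 1) (w : L2) :
    ‖P w‖ ^ 2 ≤ ‖P (M (fun x => conj (bf u l x)) w)‖ ^ 2 + (1 - ‖l‖ ^ 2) * ‖⟪k l, w⟫_ℂ‖ ^ 2 := by
  obtain ⟨c, h1, h2⟩ := ex_orth (k l) (P w)
  have b := (Bd.of_cont (bf_cont u hl)).conj
  have m : P w - c • k l ∈ H2 := sub_mem (P_mem w) (H2.smul_mem _ (k_mem hl))
  rw [P_inner (k_mem hl)] at h2
  set h := P w - c • k l with hh
  have e1 : ‖P w‖ ^ 2 = ‖c‖ ^ 2 * ‖k l‖ ^ 2 + ‖h‖ ^ 2 := by
    have := norm_add_sq_eq_norm_sq_add_norm_sq_of_inner_eq_zero (c • k l) h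
      (by rw [inner_smul_left, h1, mul_zero])
    rw [hh, add_sub_cancel, norm_smul] at this
    nlinarith
  have nb : ∀ᵐ x ∂μ, ‖conj (bf u l x)‖ = 1 := .of_forall fun x => by simp [bf_norm hu hl]
  have e2 : ⟪h, h⟫_ℂ = ⟪M (fun x => conj (bf u l x)) h, P (M (fun x => conj (bf u l x)) w)⟫_ℂ := by
    rw [P_inner (bf_conj_mem u hl m h1), M_adj b, ← M_mul b.conj b]
    simp only [Complex.conj_conj, Complex.mul_conj', bf_norm hu hl]
    conv_lhs => rw [hh, inner_sub_right, ← hh, inner_smul_right, inner_eq_zero_symm.1 h1, P_inner m]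
    simp [M_one]
  have e3 : ‖h‖ * ‖h‖ ≤ ‖h‖ * ‖P (M (fun x => conj (bf u l x)) w)‖ := by
    have := norm_inner_le_norm (𝕜 := ℂ) (M (fun x => conj (bf u l x)) h)
      (P (M (fun x => conj (bf u l x)) w))
    rwa [← e2, norm_M b nb, ← inner_self_re_eq_norm, inner_self_eq_norm_mul_norm] at this
  have e4 : ‖h‖ ≤ ‖P (M (fun x => conj (bf u l x)) w)‖ := by
    rcases (norm_nonneg h).eq_or_lt with e | e
    · rw [← e]
      positivity
    · exact le_of_mul_le_mul_left e3 e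
  rw [e1, ← h2, add_comm]
  have := k_norm hl
  refine add_le_add (by gcongr) (le_of_eq ?_)
  linear_combination (-(‖c‖ ^ 2 * ‖k l‖ ^ 2)) * this

end factor

end Pool.Agent.H.MP_4f6fd6_an
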