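import Pool.Agent.H.MP_4f6fd6_an.A

set_option autoImplicit false

namespace Pool.Agent.H.MP_4f6fd6_an

open MeasureTheory ComplexConjugate Filter Topology Metric
open scoped ENNReal InnerProductSpace

theorem chord (x y : T) : 4 * dist x y ≤ ‖z x - z y‖ ∧ ‖z x - z y‖ ≤ 7 * dist x y := by
  have e1 : z x - z y = (z (x - y) - 1) * z y := by
    rw [sub_mul, one_mul, z, z, z, fourier_one, fourier_one, fourier_one, ← Circle.coe_mul,
      ← AddCircle.toCircle_add, sub_add_cancel]
  rw [e1, norm_mul, z_norm, mul_one, dist_eq_norm]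
  generalize x - y = w
  induction w using QuotientAddGroup.induction_on with
  | H s =>
    have h1 := abs_sub_round s
    have h2 : (s : T) = (s - round s : ℝ) := by
      have : ((round s : ℝ) : T) = 0 := (AddCircle.coe_eq_zero_iff (p := (1 : ℝ))).2 ⟨round s, by simp⟩
      rw [AddCircle.coe_sub, this, sub_zero]
    rw [UnitAddCircle.norm_eq, h2]
    generalize s - round s = t at h1
    have h3 : z (t : T) = Complex.exp (Complex.I * (2 * Real.pi * t : ℝ)) := by
      rw [z, fourier_coe_apply]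
      congr 1
      push_cast
      ring
    have hp := Real.pi_pos
    have h4 : |Real.pi * t| = Real.pi * |t| := by rw [abs_mul, abs_of_pos hp]
    rw [h3, Complex.norm_exp_I_mul_ofReal_sub_one, Real.norm_eq_abs, abs_mul, abs_two,
      show 2 * Real.pi * t / 2 = Real.pi * t by ring]
    have h5 := Real.mul_abs_le_abs_sin (x := Real.pi * t) (by rw [h4]; nlinarith)
    have h6 := Real.abs_sin_le_abs (x := Real.pi * t)
    rw [h4] at h5 h6
    rw [← mul_assoc, div_mul_cancel₀ _ hp.ne'] at h5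
    have := Real.pi_lt_d2
    have := abs_nonneg t
    constructor <;> nlinarith

theorem ball_meas (x : T) {ε : ℝ} (h0 : 0 ≤ ε) (h1 : ε ≤ 1 / 2) :
    μ.real (closedBall x ε) = 2 * ε := by
  have := AddCircle.volume_closedBall (T := 1) (x := x) ε
  rw [AddCircle.volume_eq_smul_haarAddCircle, ENNReal.ofReal_one, one_smul,
    min_eq_right (by linarith)] at this
  rw [measureReal_def, this, ENNReal.toReal_ofReal (by linarith)]

theorem ae_ne : ∀ᵐ x ∂μ, x ≠ 0 := by
  have := ball_meas 0 le_rfl (by norm_num)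
  rw [closedBall_zero, mul_zero, measureReal_eq_zero_iff] at this
  simpa [ae_iff] using this

/-- positions -/
noncomputable def a (n : ℕ) : ℝ := (1 / 2) ^ n / 4

theorem a_pos (n : ℕ) : 0 < a n := by unfold a; positivity

theorem a_succ (n : ℕ) : a (n + 1) = a n / 2 := by unfold a; ring

theorem a_anti : Antitone a := antitone_nat_of_succ_le fun n => by
  have := a_pos n
  rw [a_succ]
  linarith

theorem a_le (n : ℕ) : a n ≤ 1 / 4 := (a_anti (Nat.zero_le n)).trans_eq (by simp [a])

theorem a_cube (n : ℕ) : 16 * a n ^ 3 ≤ a n := by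
  have := a_pos n
  have := a_le n
  have : 16 * a n ^ 2 ≤ 1 := by nlinarith
  nlinarith

theorem a_sum : Summable a := summable_geometric_two.div_const 4

/-- points -/
noncomputable def p (n : ℕ) : T := (a n : ℝ)

theorem p_norm (n : ℕ) : dist (p n) 0 = a n := by
  have := a_pos n
  have := a_le n
  rw [dist_zero_right, p, (AddCircle.norm_coe_eq_abs_iff _ one_ne_zero).2 (by
    rw [abs_of_pos (a_pos n), abs_one]; linarith), abs_of_pos (a_pos n)]

theorem p_sep {j n : ℕ} (h : j ≠ n) : a j ≤ 2 * dist (p n) (p j) ∧ a n ≤ 2 * dist (p n) (p j) := by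
  have h1 := dist_triangle (p n) (p j) 0
  have h2 := dist_triangle_left (p j) 0 (p n)
  rw [p_norm, p_norm] at h1 h2
  have := a_pos n
  have := a_pos j
  rcases h.lt_or_gt with h | h <;> have := a_anti (Nat.succ_le_of_lt h) <;> rw [a_succ] at this <;>
    constructor <;> linarith

/-- zeros -/
noncomputable def lam (n : ℕ) : ℂ := (1 - a n ^ 3 : ℝ) * z (p n)

theorem lam_norm (n : ℕ) : ‖lam n‖ = 1 - a n ^ 3 := by
  have := a_cube n
  have := a_le n
  rw [lam, norm_mul, z_norm, mul_one, Complex.norm_real, Real.norm_of_nonneg (by linarith)]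

theorem lam_lt (n : ℕ) : ‖lam n‖ < 1 := by
  rw [lam_norm]
  exact sub_lt_self _ (pow_pos (a_pos n) 3)

theorem rho (n : ℕ) (x : T) : 4 * dist x (p n) - a n ^ 3 ≤ ‖z x - lam n‖ ∧
    ‖z x - lam n‖ ≤ 7 * dist x (p n) + a n ^ 3 := by
  have h1 : ‖z (p n) - lam n‖ = a n ^ 3 := by
    rw [show z (p n) - lam n = (a n ^ 3 : ℝ) * z (p n) by rw [lam]; push_cast; ring, norm_mul,
      z_norm, mul_one, Complex.norm_real, Real.norm_of_nonneg (pow_pos (a_pos n) 3).le]
  have h2 := chord x (p n)
  have h3 := dist_triangle (z x) (z (p n)) (lam n)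
  have h4 := dist_triangle_right (z x) (z (p n)) (lam n)
  simp only [dist_eq_norm (E := ℂ), h1] at h3 h4
  constructor <;> linarith

theorem kf_norm (l : ℂ) (x : T) : ‖kf l x‖ = ‖z x - l‖⁻¹ := by rw [kf, norm_inv, den_norm]

theorem rho_pos (n : ℕ) (x : T) : 0 < ‖z x - lam n‖ := by
  rw [← den_norm]
  exact norm_pos_iff.2 (den_ne (lam_lt n) x)

/-- factors -/
noncomputable def φ (n : ℕ) : T → ℂ := bf (-conj (z (p n))) (lam n)

theorem u_norm (n : ℕ) : ‖-conj (z (p n))‖ = 1 := by simp [z_norm]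

theorem φ_cont (n : ℕ) : Continuous (φ n) := bf_cont _ (lam_lt n)

theorem φ_sub (n : ℕ) (x : T) : ‖φ n x - 1‖ ≤ 2 * a n ^ 3 * ‖z x - lam n‖⁻¹ := by
  have h1 : z (p n) * conj (z (p n)) = 1 := by simp [Complex.mul_conj', z_norm]
  have h2 : φ n x - 1 = -(a n ^ 3 : ℝ) * (1 + conj (z (p n)) * z x) * kf (lam n) x := by
    have h3 := mul_inv_cancel₀ (den_ne (lam_lt n) x)
    rw [φ, bf, kf]
    generalize (1 - conj (lam n) * z x)⁻¹ = w at h3
    rw [lam, map_mul, Complex.conj_ofReal] at h3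
    rw [lam]
    push_cast at h3 ⊢
    linear_combination (1 - (a n : ℂ) ^ 3) * w * h1 + h3
  rw [h2, norm_mul, norm_mul, kf_norm, norm_neg, Complex.norm_real,
    Real.norm_of_nonneg (pow_pos (a_pos n) 3).le, mul_comm 2]
  have := a_pos n
  gcongr
  refine (norm_add_le _ _).trans ?_
  simp [z_norm]
  norm_num

/-- partial products -/
noncomputable def B (N : ℕ) (x : T) : ℂ := ∏ j ∈ Finset.range N, φ j x

/-- the Blaschke product -/
noncomputable def I (x : T) : ℂ := ∏' j, φ j x

theorem B_cont (N : ℕ) : Continuous (B N) := continuous_finsetProd _ fun j _ => φ_cont j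

theorem B_bd (N : ℕ) : Bd (B N) := .of_cont (B_cont N)

theorem B_norm (N : ℕ) (x : T) : ‖B N x‖ = 1 := by
  rw [B, norm_prod]
  exact Finset.prod_eq_one fun j _ => bf_norm (u_norm j) (lam_lt j) x

theorem B_succ (N : ℕ) : B (N + 1) = fun x => B N x * φ N x :=
  funext fun _ => Finset.prod_range_succ _ _

theorem B_lim : ∀ᵐ x ∂μ, Tendsto (fun N => B N x) atTop (𝓝 (I x)) := by
  filter_upwards [ae_ne] with x hx
  have h0 : 0 < dist x 0 := dist_pos.2 hx
  have : Summable fun j => φ j x - 1 := by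
    refine (a_sum.mul_left (dist x 0)⁻¹).of_norm_bounded_eventually_nat ?_
    filter_upwards [a_sum.tendsto_atTop_zero.eventually_le_const (half_pos h0)] with j hj
    have h1 := (rho j x).1
    have h2 := dist_triangle x (p j) 0
    have h3 := a_cube j
    have h4 := a_pos j
    rw [p_norm] at h2
    refine (φ_sub j x).trans ?_
    rw [mul_comm]
    gcongr
    · linarith
    · linarith
  simpa [B, I] using (Complex.multipliable_one_add_of_summable this).tendsto_prod_tprod_nat

theorem I_norm : ∀ᵐ x ∂μ, ‖I x‖ = 1 := B_lim.mono fun x hx => by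
  have := hx.norm
  simp only [B_norm] at this
  exact tendsto_nhds_unique this tendsto_const_nhds

theorem I_bd : Bd I :=
  memLp_top_of_bound (aestronglyMeasurable_of_tendsto_ae atTop
    (fun N => (B_cont N).aestronglyMeasurable) B_lim) 1 (I_norm.mono fun _ h => h.le)

theorem weak (f g : L2) : Tendsto (fun N => ⟪f, M (B N) g⟫_ℂ) atTop (𝓝 ⟪f, M I g⟫_ℂ) := by
  have e1 : ∀ ψ, Bd ψ → ⟪f, M ψ g⟫_ℂ = ∫ x, ψ x * (conj (rep f x) * rep g x) ∂μ := by
    intro ψ h
    rw [inner_eq]
    refine integral_congr_ae ?_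
    filter_upwards [rep_M h g] with x hx
    rw [hx]
    ring
  simp only [e1 _ (B_bd _), e1 _ I_bd]
  refine tendsto_integral_of_dominated_convergence _
    (fun N => (B_cont N).aestronglyMeasurable.mul (int_mul f g).1) (int_mul f g).norm
    (fun N => .of_forall fun x => by rw [norm_mul, B_norm, one_mul]) ?_
  exact B_lim.mono fun x hx => hx.mul_const _

theorem B_mem (N : ℕ) {h : L2} (hh : h ∈ H2) : M (B N) h ∈ H2 := by
  induction N generalizing h with
  | zero => exact (M_one h).symm ▸ hh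
  | succ N ih =>
    rw [B_succ, M_mul (B_bd N) (.of_cont (φ_cont N))]
    exact ih (bf_mem _ (lam_lt N) hh)

theorem I_mem {h : L2} (hh : h ∈ H2) : M I h ∈ H2 := mem_H2.2 fun n hn => by
  have := weak (e n) h
  simp only [mem_H2.1 (B_mem _ hh) n hn] at this
  exact tendsto_nhds_unique this tendsto_const_nhds

theorem I_orth (n : ℕ) {h : L2} (hh : h ∈ H2) : ⟪k (lam n), M I h⟫_ℂ = 0 := by
  have key : ∀ N, n + 1 ≤ N → ∀ h ∈ H2, ⟪k (lam n), M (B N) h⟫_ℂ = 0 := by
    intro N hN
    induction N, hN using Nat.le_induction with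
    | base =>
      intro h hh
      simp only [B_succ, mul_comm (B n _)]
      rw [M_mul (.of_cont (φ_cont n)) (B_bd n)]
      exact bf_orth _ (lam_lt n) (B_mem n hh)
    | succ N _ ih =>
      intro h hh
      rw [B_succ, M_mul (B_bd N) (.of_cont (φ_cont N))]
      exact ih _ (bf_mem _ (lam_lt N) hh)
  refine tendsto_nhds_unique (weak _ h) (tendsto_const_nhds.congr' ?_)
  filter_upwards [eventually_ge_atTop (n + 1)] with N hN using (key N hN h hh).symm

theorem M_adj' {ψ : T → ℂ} (h : Bd ψ) (f g : L2) :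
    ⟪M (fun x => conj (ψ x)) f, g⟫_ℂ = ⟪f, M ψ g⟫_ℂ := by
  simpa only [Complex.conj_conj] using M_adj h.conj f g

theorem strong (v : L2) : Tendsto (fun N => M (fun x => conj (B N x)) v) atTop
    (𝓝 (M (fun x => conj (I x)) v)) := by
  set y := M (fun x => conj (I x)) v with hy
  have h1 : ‖y‖ = ‖v‖ := norm_M I_bd.conj (by simpa using I_norm) v
  have h2 := weak v y
  rw [← M_adj' I_bd, ← hy] at h2
  simp only [← M_adj' (B_bd _)] at h2
  have h3 := (RCLike.continuous_re.tendsto _).comp h2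
  rw [inner_self_eq_norm_sq] at h3
  have h4 := (((h3.const_mul 2).const_sub (‖v‖ ^ 2)).add_const (‖y‖ ^ 2)).sqrt
  rw [h1, show ‖v‖ ^ 2 - 2 * ‖v‖ ^ 2 + ‖v‖ ^ 2 = 0 by ring, Real.sqrt_zero] at h4
  refine tendsto_iff_norm_sub_tendsto_zero.2 (h4.congr fun N => ?_)
  rw [Real.sqrt_eq_iff_eq_sq ?_ (norm_nonneg _), norm_sub_sq (𝕜 := ℂ), h1,
    norm_M (B_bd N).conj (.of_forall fun x => by simp [B_norm])]
  · rfl
  · have := sq_nonneg ‖M (fun x => conj (B N x)) v - y‖
    rwa [norm_sub_sq (𝕜 := ℂ), h1,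
      norm_M (B_bd N).conj (.of_forall fun x => by simp [B_norm])] at this

theorem tele {v : L2} {c : ℝ} (hc : 0 ≤ c)
    (h : ∀ j, (1 - ‖lam j‖ ^ 2) * ‖⟪M (B j) (k (lam j)), v⟫_ℂ‖ ^ 2 ≤ a j * c) :
    ‖P v‖ ^ 2 ≤ ‖P (M (fun x => conj (I x)) v)‖ ^ 2 + c / 2 := by
  have key : ∀ N, ‖P v‖ ^ 2 ≤ ‖P (M (fun x => conj (B N x)) v)‖ ^ 2 + (1 / 2 - 2 * a N) * c := by
    intro N
    induction N with
    | zero => simp [B, M_one, a]; norm_num
    | succ N ih =>
      have h1 := step (u_norm N) (lam_lt N) (M (fun x => conj (B N x)) v)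
      have h2 := h N
      rw [M_adj (B_bd N)] at h2
      rw [← M_mul (Bd.of_cont (bf_cont _ (lam_lt N))).conj (B_bd N).conj] at h1
      simp only [B_succ, map_mul, mul_comm (conj (B N _)), φ, a_succ]
      linarith
  refine ge_of_tendsto' ((((P.continuous.tendsto _).comp (strong v)).norm.pow 2).add_const _)
    fun N => (key N).trans ?_
  have := mul_nonneg (a_pos N).le hc
  simp only [Function.comp]
  linarith

end Pool.Agent.H.MP_4f6fd6_an
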