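import Pool.Agent.H.MP_4f6fd6_an.B

set_option autoImplicit false

namespace Pool.Agent.H.MP_4f6fd6_an

open MeasureTheory ComplexConjugate Filter Topology Metric
open scoped ENNReal InnerProductSpace

/-- outer part -/
noncomputable def b0 (x : T) : ℂ := 2⁻¹ * (1 + z x)

/-- the symbol -/
noncomputable def b (x : T) : ℂ := I x * b0 x

theorem b0_cont : Continuous b0 := continuous_const.mul (continuous_const.add z_cont)

theorem b_bd : Bd b := I_bd.mul (.of_cont b0_cont)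

theorem b0_mem {h : L2} (hh : h ∈ H2) : M b0 h ∈ H2 := by
  have : M b0 h = (2⁻¹ : ℂ) • (h + M z h) := by
    refine rep_ext ?_
    filter_upwards [rep_M (.of_cont b0_cont) h, rep_smul 2⁻¹ (h + M z h), rep_add h (M z h),
      rep_M z_bd h] with x h1 h2 h3 h4
    rw [h1, h2, h3, h4, b0]
    ring
  exact this ▸ H2.smul_mem _ (add_mem hh (z_mem hh))

theorem b_eq (h : L2) : M b h = M I (M b0 h) := M_mul I_bd (.of_cont b0_cont) h

theorem b_mem {h : L2} (hh : h ∈ H2) : M b h ∈ H2 := b_eq h ▸ I_mem (b0_mem hh)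

theorem b_norm : ∀ᵐ x ∂μ, ‖b x‖ = ‖1 + z x‖ / 2 := I_norm.mono fun x hx => by
  rw [b, norm_mul, hx, one_mul, b0, norm_mul, norm_inv, Complex.norm_two, inv_mul_eq_div]

theorem b_le : ∀ᵐ x ∂μ, ‖b x‖ ≤ 1 := b_norm.mono fun x hx => by
  have := norm_add_le 1 (z x)
  rw [z_norm, norm_one] at this
  linarith

/-- indicator -/
noncomputable def χ (E : Set T) : T → ℂ := E.indicator fun _ => 1

section ind

variable {E : Set T} (hE : MeasurableSet E)
include hE

theorem χ_bd : Bd (χ E) := (Bd.of_cont continuous_const).indicator hE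

theorem rep_χ (f : L2) : ∀ᵐ x ∂μ, (x ∈ E → rep (M (χ E) f) x = rep f x) ∧
    (x ∉ E → rep (M (χ E) f) x = 0) :=
  (rep_M (χ_bd hE) f).mono fun x hx => by
    rw [hx]
    constructor <;> intro h <;> simp [χ, h]

theorem χ_adj (f g : L2) : ⟪M (χ E) f, g⟫_ℂ = ⟪f, M (χ E) g⟫_ℂ := by
  rw [M_adj (χ_bd hE)]
  congr 3
  ext x
  by_cases h : x ∈ E <;> simp [χ, h]

theorem χ_idem (f : L2) : M (χ E) (M (χ E) f) = M (χ E) f := by
  rw [← M_mul (χ_bd hE) (χ_bd hE)]
  congr 2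
  ext x
  by_cases h : x ∈ E <;> simp [χ, h]

theorem rep_ind : ∀ᵐ x ∂μ, rep (M (χ E) (e 0)) x = χ E x := by
  filter_upwards [rep_M (χ_bd hE) (e 0), rep_e 0] with x h1 h2
  rw [h1, h2]
  simp

theorem ind_sq : ‖M (χ E) (e 0)‖ ^ 2 = μ.real E := by
  rw [← inner_self_eq_norm_sq (𝕜 := ℂ), χ_adj hE, χ_idem hE, inner_eq,
    integral_congr_ae (g := χ E), χ, integral_indicator_const _ hE]
  · simp
  · filter_upwards [rep_ind hE, rep_e 0] with x h1 h2
    rw [h1, h2]
    simp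

theorem low {v : L2} {r : ℝ} (hr : 0 < r) (h : ∀ᵐ x ∂μ, x ∈ E → r ≤ ‖rep v x‖) :
    r ^ 2 * μ.real E ≤ ‖v‖ ^ 2 := by
  have : ‖M (χ E) (e 0)‖ ≤ r⁻¹ * ‖v‖ := by
    refine norm_le ?_
    filter_upwards [rep_ind hE, h] with x h1 h2
    rw [h1]
    by_cases h : x ∈ E
    · simpa [χ, h, one_le_inv_mul₀ hr] using h2 h
    · simp only [χ, h, not_false_eq_true, Set.indicator_of_notMem, norm_zero]
      positivity
  rw [← ind_sq hE, ← mul_pow]
  gcongr
  rwa [← le_inv_mul_iff₀ hr]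

theorem up {v g : L2} {C : ℝ} (hv : M (χ E) v = v) (h : ∀ᵐ x ∂μ, x ∈ E → ‖rep g x‖ ≤ C) :
    ‖⟪g, v⟫_ℂ‖ ^ 2 ≤ C ^ 2 * μ.real E * ‖v‖ ^ 2 := by
  have : ‖M (χ E) g‖ ≤ C * ‖M (χ E) (e 0)‖ := by
    refine norm_le ?_
    filter_upwards [rep_ind hE, h, rep_χ hE g] with x h1 h2 h3
    rw [h1]
    by_cases h : x ∈ E
    · rw [h3.1 h]
      simpa [χ, h] using h2 h
    · rw [h3.2 h]
      simp [χ, h]
  rw [← ind_sq hE, ← mul_pow, ← mul_pow]
  gcongr
  rw [← hv, ← χ_adj hE, hv]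
  exact (norm_inner_le_norm _ _).trans (by gcongr)

end ind

theorem rep_Bk (j : ℕ) : ∀ᵐ x ∂μ, ‖rep (M (B j) (k (lam j))) x‖ = ‖z x - lam j‖⁻¹ := by
  filter_upwards [rep_M (B_bd j) (k (lam j)), rep_k (lam_lt j)] with x h1 h2
  rw [h1, h2, norm_mul, B_norm, one_mul, kf_norm]

theorem main (n : ℕ) {f : L2} {γ : ℝ} (hγ : 0 ≤ γ)
    (h1 : ∀ v, ‖⟪v, f⟫_ℂ‖ ^ 2 ≤ γ * (‖P v‖ ^ 2 - ‖P (M (fun x => conj (b x)) v)‖ ^ 2))
    (h2 : ∀ᵐ x ∂μ, x ∈ closedBall (p n) (3 * a n ^ 3) → ‖rep f x‖ = 1) : a n ^ 2 ≤ 72 * γ := by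
  have a0 := a_pos n
  have a1 := a_le n
  have a2 := a_cube n
  have d0 := pow_pos a0 3
  set E := closedBall (p n) (3 * a n ^ 3) with hE'
  have hE : MeasurableSet E := measurableSet_closedBall
  have mE : μ.real E = 2 * (3 * a n ^ 3) := ball_meas _ (by linarith) (by linarith)
  set q := M (χ E) (M (B n) (k (lam n))) with hq
  obtain ⟨c, h3, -⟩ := ex_orth q (M (χ E) f)
  set v := M (χ E) f - c • q with hv'
  have hv : M (χ E) v = v := by rw [hv', map_sub, map_smul, hq, χ_idem hE, χ_idem hE]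
  have s1 : ⟪M (B n) (k (lam n)), v⟫_ℂ = 0 := by rw [← hv, ← χ_adj hE, h3]
  have s2 : ‖⟪v, f⟫_ℂ‖ = ‖v‖ ^ 2 := by
    have : ⟪v, f⟫_ℂ = ⟪v, v⟫_ℂ := by
      conv_lhs => rw [← hv, χ_adj hE]
      conv_rhs => rw [hv', inner_sub_right, ← hv', inner_smul_right, inner_eq_zero_symm.1 h3]
      simp
    rw [this, ← inner_self_re_eq_norm, inner_self_eq_norm_sq]
  have s3 : ∀ᵐ x ∂μ, x ∈ E → |1 - ‖c‖ * ‖z x - lam n‖⁻¹| ≤ ‖rep v x‖ := by
    filter_upwards [rep_sub (M (χ E) f) (c • q), rep_smul c q, rep_χ hE f,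
      rep_χ hE (M (B n) (k (lam n))), rep_Bk n, h2] with x e1 e2 e3 e4 e5 e6 hx
    rw [hv', e1, e2, e3.1 hx, hq, e4.1 hx, ← e5, ← e6 hx, ← norm_mul]
    exact abs_norm_sub_norm_le _ _
  have s4 : a n ^ 3 / 6 ≤ ‖v‖ ^ 2 := by
    rcases le_total (4 * a n ^ 3) ‖c‖ with hc | hc
    · have := low (v := v) (E := closedBall (p n) (a n ^ 3 / 7)) measurableSet_closedBall one_pos (by
        filter_upwards [s3] with x hx hm
        refine le_trans ?_ (hx (closedBall_subset_closedBall (by linarith) hm))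
        have r1 := (rho n x).2
        have r2 := rho_pos n x
        rw [mem_closedBall] at hm
        have : 2 ≤ ‖c‖ * ‖z x - lam n‖⁻¹ := by
          rw [← div_eq_mul_inv, le_div_iff₀ r2]
          linarith
        exact le_abs.2 (.inr (by linarith)))
      rw [ball_meas _ (by linarith) (by linarith)] at this
      linarith
    · have t0 : dist (p n) (p n + (5 / 2 * a n ^ 3 : ℝ)) = 5 / 2 * a n ^ 3 := by
        rw [dist_self_add_right, (AddCircle.norm_coe_eq_abs_iff _ one_ne_zero).2 (by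
          rw [abs_of_pos (by linarith), abs_one]; linarith), abs_of_pos (by linarith)]
      have := low (v := v) (E := closedBall (p n + (5 / 2 * a n ^ 3 : ℝ)) (a n ^ 3 / 2))
        measurableSet_closedBall (r := 3 / 7) (by norm_num) (by
        filter_upwards [s3] with x hx hm
        rw [mem_closedBall] at hm
        have t1 := dist_triangle_right x (p n) (p n + (5 / 2 * a n ^ 3 : ℝ))
        have t2 := dist_triangle_left (p n) (p n + (5 / 2 * a n ^ 3 : ℝ)) x
        refine le_trans ?_ (hx (mem_closedBall.2 (by linarith)))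
        have r1 := (rho n x).1
        have r2 := rho_pos n x
        have : ‖c‖ * ‖z x - lam n‖⁻¹ ≤ 4 / 7 := by
          rw [← div_eq_mul_inv, div_le_iff₀ r2]
          linarith
        exact le_abs.2 (.inl (by linarith)))
      rw [ball_meas _ (by linarith) (by linarith)] at this
      linarith
  have s5 := tele (v := v) (c := 8 * μ.real E * ‖v‖ ^ 2) (by positivity) fun j => by
    have j0 := a_pos j
    rcases eq_or_ne j n with rfl | hj
    · rw [s1, norm_zero, zero_pow two_ne_zero, mul_zero]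
      positivity
    have := up hE hv (g := M (B j) (k (lam j))) (C := (a j / 2)⁻¹) (by
      filter_upwards [rep_Bk j] with x hx hm
      rw [hx]
      have r1 := (rho j x).1
      have t1 := dist_triangle_left (p n) (p j) x
      have := p_sep hj
      have := a_cube j
      rw [hE', mem_closedBall] at hm
      gcongr
      linarith)
    calc _ ≤ (2 * a j ^ 3) * ((a j / 2)⁻¹ ^ 2 * μ.real E * ‖v‖ ^ 2) := by
          rw [lam_norm]
          gcongr
          nlinarith [sq_nonneg (a j ^ 3)]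
      _ = _ := by
          field_simp
          ring
  have s6 : ‖M (fun x => conj (I x)) v - M (fun x => conj (b x)) v‖ ≤ 5 * a n * ‖v‖ := by
    refine norm_le ?_
    filter_upwards [rep_sub (M (fun x => conj (I x)) v) (M (fun x => conj (b x)) v),
      rep_M I_bd.conj v, rep_M b_bd.conj v, rep_χ hE v, I_norm] with x e1 e2 e3 e4 e5
    rw [hv] at e4
    rw [e1, e2, e3, ← sub_mul, ← map_sub, norm_mul, Complex.norm_conj]
    by_cases hx : x ∈ E
    · gcongr
      have t1 := (chord x 0).2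
      have t2 := dist_triangle x (p n) 0
      rw [p_norm] at t2
      rw [hE', mem_closedBall] at hx
      rw [show I x - b x = -2⁻¹ * I x * (z x - z 0) by simp only [b, b0, z, fourier_eval_zero]; ring,
        norm_mul, norm_mul, e5, norm_neg, norm_inv, Complex.norm_two]
      linarith
    · simp [e4.2 hx]
  have s7 : ‖P (M (fun x => conj (I x)) v)‖ ≤ ‖v‖ :=
    (P_le _).trans_eq (norm_M I_bd.conj (by simpa using I_norm) v)
  have s8 := (norm_sub_norm_le _ _).trans ((map_sub P _ _ ▸ P_le _).trans s6)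
  have s9 := h1 v
  rw [s2] at s9
  rw [mE] at s5
  have t0 := norm_nonneg (P (M (fun x => conj (I x)) v))
  generalize ‖P (M (fun x => conj (I x)) v)‖ = t at *
  have s0 := norm_nonneg (P (M (fun x => conj (b x)) v))
  generalize ‖P (M (fun x => conj (b x)) v)‖ = s at *
  have v0 := norm_nonneg v
  have t1 : t ^ 2 - s ^ 2 ≤ 10 * a n * ‖v‖ ^ 2 := by
    rcases le_total t s with h | h
    · exact (sub_nonpos.2 (by gcongr)).trans (by positivity)
    · calc _ = (t - s) * (t + s) := by ring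
        _ ≤ (5 * a n * ‖v‖) * (2 * ‖v‖) :=
          mul_le_mul s8 (by linarith) (by positivity) (by positivity)
        _ = _ := by ring
  have t2 : ‖v‖ ^ 2 * ‖v‖ ^ 2 ≤ (12 * a n * γ) * ‖v‖ ^ 2 := by
    calc _ = (‖v‖ ^ 2) ^ 2 := by ring
      _ ≤ γ * (12 * a n * ‖v‖ ^ 2) := s9.trans (by
          gcongr
          nlinarith [mul_nonneg (sub_nonneg.2 a2) (sq_nonneg ‖v‖), mul_nonneg a0.le (sq_nonneg ‖v‖)])
      _ = _ := by ring
  have t3 := s4.trans (le_of_mul_le_mul_right t2 (by linarith))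
  refine le_of_mul_le_mul_left ?_ a0
  linarith

/-- Toeplitz operator -/
noncomputable def Tp (ψ : T → ℂ) : Hd →L[ℂ] Hd :=
  H2.orthogonalProjectionOnto.comp ((M ψ).comp H2.subtypeL)

theorem Tp_val (ψ : T → ℂ) (f : Hd) : (Tp ψ f).1 = P (M ψ f.1) := rfl

theorem inner_val (f g : Hd) : ⟪f, g⟫_ℂ = ⟪f.1, g.1⟫_ℂ := rfl

theorem isToep {ψ : T → ℂ} (h : Bd ψ) : IsToep ψ (Tp ψ) := by
  intro f g
  rw [inner_val, Tp_val, P_inner g.2, inner_eq]
  refine integral_congr_ae ?_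
  filter_upwards [rep_M h f.1] with x hx
  rw [hx]
  rfl

theorem Tp_adj (f g : Hd) : ⟪f, Tp b g⟫_ℂ = ⟪Tp (fun x => conj (b x)) f, g⟫_ℂ := by
  rw [← inner_conj_symm (Tp _ f), inner_val, inner_val, Tp_val, Tp_val, P_inner f.2, P_inner g.2,
    inner_conj_symm, M_adj' b_bd]

theorem Tp_le (f : Hd) : ‖Tp (fun x => conj (b x)) f‖ ≤ ‖f‖ := by
  refine (P_le (M (fun x => conj (b x)) f.1)).trans
    ((norm_le (c := 1) (g := f.1) ?_).trans_eq (one_mul _))
  filter_upwards [rep_M b_bd.conj f.1, b_le] with x h1 h2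
  rw [h1, norm_mul, Complex.norm_conj]
  gcongr

theorem ex_root : ∃ S, IsRoot S (Tp b) (Tp fun x => conj (b x)) := by
  have h : 0 ≤ 1 - Tp b * Tp fun x => conj (b x) := by
    refine (ContinuousLinearMap.nonneg_iff_isPositive _).2
      (ContinuousLinearMap.isPositive_iff_complex _ |>.2 fun f => ?_)
    have e1 : ⟪(1 - Tp b * Tp fun x => conj (b x)) f, f⟫_ℂ =
        (‖f‖ ^ 2 - ‖Tp (fun x => conj (b x)) f‖ ^ 2 : ℝ) := by
      rw [_root_.sub_apply, inner_sub_left, mul_apply_eq_comp, ← inner_conj_symm (Tp b _), Tp_adj,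
        inner_conj_symm, one_apply_eq_self, inner_self_eq_norm_sq_to_K,
        inner_self_eq_norm_sq_to_K]
      simp
    rw [e1]
    exact ⟨rfl, sub_nonneg.2 (pow_le_pow_left₀ (norm_nonneg _) (Tp_le f) 2)⟩
  refine ⟨CFC.sqrt (1 - Tp b * Tp fun x => conj (b x)),
    (ContinuousLinearMap.nonneg_iff_isPositive _).1 (CFC.sqrt_nonneg _), fun f => ?_⟩
  rw [← mul_apply_eq_comp, CFC.sqrt_mul_sqrt_self _ h]
  rfl

variable {S : Hd →L[ℂ] Hd} (hS : IsRoot S (Tp b) (Tp fun x => conj (b x)))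
include hS

theorem root_norm (u : Hd) : ‖S u‖ ^ 2 = ‖u‖ ^ 2 - ‖Tp (fun x => conj (b x)) u‖ ^ 2 := by
  simp only [← inner_self_eq_norm_sq (𝕜 := ℂ)]
  rw [hS.1.inner_left_eq_inner_right, hS.2, inner_sub_right, Tp_adj, map_sub]

theorem cap_two (n : ℕ) : ENNReal.ofReal (a n ^ 2 / 72) ≤
    cap S (· = 1) (closedBall (p n) (3 * a n ^ 3)) := by
  refine le_iInf fun g => le_iInf fun _ => le_iInf fun U => le_iInf fun _ => le_iInf fun hU =>
    le_iInf fun h => ?_
  have := main n (f := (S g).1) (sq_nonneg ‖g‖) (fun v => ?_) (h.mono fun x hx hm => hx (hU hm))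
  · rw [← ofReal_norm, ← ENNReal.ofReal_pow (norm_nonneg _)]
    exact ENNReal.ofReal_le_ofReal (by linarith)
  let u : Hd := ⟨P v, P_mem v⟩
  have e1 : ⟪v, (S g).1⟫_ℂ = ⟪S u, g⟫_ℂ := by
    rw [hS.1.inner_left_eq_inner_right, inner_val, ← inner_conj_symm, ← P_inner (S g).2,
      inner_conj_symm]
  have e2 : P (M (fun x => conj (b x)) v) = (Tp (fun x => conj (b x)) u).1 := by
    refine P_eq (g := M (fun x => conj (b x)) (P v)) fun w hw => ?_
    simp only [← M_adj b_bd]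
    exact (P_inner (b_mem hw) v).symm
  rw [e1, e2, mul_comm]
  refine (pow_le_pow_left₀ (norm_nonneg _) (norm_inner_le_norm _ _) 2).trans_eq ?_
  rw [mul_pow, root_norm hS]
  rfl

theorem cap_one (n : ℕ) : cap S (1 ≤ ·) (closedBall (p n) (3 * a n ^ 3)) ≤
    ENNReal.ofReal (841 * a n ^ 3) := by
  have d0 := pow_pos (a_pos n) 3
  let κ : Hd := ⟨((29 * a n ^ 3 : ℝ) : ℂ) • k (lam n), H2.smul_mem _ (k_mem (lam_lt n))⟩
  have h0 : Tp (fun x => conj (b x)) κ = 0 := by
    rw [← inner_self_eq_zero (𝕜 := ℂ), ← Tp_adj, inner_val, Tp_val, P_inner κ.2, inner_smul_left,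
      b_eq, I_orth n (b0_mem (Subtype.prop _)), mul_zero]
  have h1 : S (S κ) = κ := by rw [hS.2, h0, map_zero, sub_zero]
  refine iInf_le_of_le (S κ) (iInf_le_of_le (fun h hh => ?_) (iInf_le_of_le
    (ball (p n) (4 * a n ^ 3)) (iInf_le_of_le isOpen_ball (iInf_le_of_le
      (closedBall_subset_ball (by linarith)) (iInf_le_of_le ?_ ?_)))))
  · rw [← hS.1.inner_left_eq_inner_right, hh, inner_zero_left]
  · rw [h1]
    filter_upwards [rep_smul ((29 * a n ^ 3 : ℝ) : ℂ) (k (lam n)), rep_k (lam_lt n)] with x e1 e2 hx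
    have r1 := (rho n x).2
    rw [mem_ball] at hx
    change 1 ≤ ‖rep (_ • _) x‖
    rw [e1, e2, norm_mul, kf_norm, Complex.norm_real, Real.norm_of_nonneg (by linarith),
      ← div_eq_mul_inv, one_le_div (rho_pos n x)]
    linarith
  · rw [← ofReal_norm, ← ENNReal.ofReal_pow (norm_nonneg _), root_norm hS, h0]
    refine ENNReal.ofReal_le_ofReal ?_
    have e1 := k_norm (lam_lt n)
    have e2 : ‖κ‖ = 29 * a n ^ 3 * ‖k (lam n)‖ := by
      refine (norm_smul ((29 * a n ^ 3 : ℝ) : ℂ) (k (lam n))).trans ?_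
      rw [Complex.norm_real, Real.norm_of_nonneg (by linarith)]
    have := a_cube n
    have := a_le n
    have e3 : a n ^ 3 * ‖k (lam n)‖ ^ 2 ≤ 1 := by
      rw [← e1, lam_norm]
      gcongr
      nlinarith
    rw [e2]
    nlinarith

theorem not_comp (C : NNReal) : ∃ E, C * cap S (1 ≤ ·) E < cap S (· = 1) E := by
  have c0 : (0 : ℝ) < C * 841 * 72 + 1 := by positivity
  obtain ⟨n, hn⟩ := (a_sum.tendsto_atTop_zero.eventually_le_const (inv_pos.2 c0)).exists
  have a0 := a_pos n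
  refine ⟨_, (mul_le_mul_right (cap_one hS n) _).trans_lt (lt_of_lt_of_le ?_ (cap_two hS n))⟩
  rw [← ENNReal.ofReal_coe_nnreal, ← ENNReal.ofReal_mul C.coe_nonneg,
    ENNReal.ofReal_lt_ofReal_iff (by positivity)]
  rw [inv_eq_one_div, le_div_iff₀ c0] at hn
  nlinarith [mul_le_mul_of_nonneg_left hn (sq_nonneg (a n)), pow_pos a0 3]

omit hS

theorem b_top : eLpNorm b ⊤ μ = 1 := by
  refine le_antisymm ((eLpNormEssSup_le_of_ae_bound b_le).trans_eq ENNReal.ofReal_one) ?_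
  have h1 : ∀ᵐ x ∂μ, ‖1 + z x‖ / 2 ≤ (eLpNormEssSup b μ).toReal := by
    filter_upwards [ae_le_eLpNormEssSup (f := b) (μ := μ), b_norm] with x e1 e2
    rw [← e2]
    exact (toReal_enorm _).symm.trans_le (ENNReal.toReal_mono b_bd.2.ne e1)
  have h2 : IsClosed {x | ‖1 + z x‖ / 2 ≤ (eLpNormEssSup b μ).toReal} :=
    isClosed_le ((continuous_const.add z_cont).norm.div_const _) continuous_const
  have h3 := h2.closure_eq ▸ μ.dense_of_ae h1 0
  rw [← ENNReal.ofReal_one]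
  refine ENNReal.ofReal_le_of_le_toReal (le_trans ?_ h3)
  simp [z]
  norm_num

/-- witness of non-extremality -/
noncomputable def w (x : T) : ℂ := 8⁻¹ * (1 - z x) ^ 2

theorem w_cont : Continuous w := continuous_const.mul ((continuous_const.sub z_cont).pow 2)

theorem w_hinf : IsHinf w := by
  refine isHinf (.of_cont w_cont) ?_
  have : ∀ h, M w h = (8⁻¹ : ℂ) • (h - M z h - M z (h - M z h)) := by
    intro h
    refine rep_ext ?_
    filter_upwards [rep_M (.of_cont w_cont) h, rep_smul 8⁻¹ (h - M z h - M z (h - M z h)),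
      rep_sub (h - M z h) (M z (h - M z h)), rep_sub h (M z h), rep_M z_bd (h - M z h),
      rep_M z_bd h] with x h1 h2 h3 h4 h5 h6
    rw [h1, h2, h3, h5, h4, h6, w]
    ring
  have m := sub_mem e0_mem (z_mem e0_mem)
  exact this _ ▸ H2.smul_mem _ (sub_mem m (z_mem m))

theorem w_ne : ¬w =ᵐ[μ] 0 := by
  intro h
  have h1 := congrFun ((w_cont.ae_eq_iff_eq μ continuous_const).1 h) (p 0)
  have h2 := (chord (p 0) 0).1
  rw [p_norm, norm_sub_rev] at h2
  have h3 : z 0 - z (p 0) = 0 := by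
    have : (8⁻¹ : ℂ) * (1 - z (p 0)) ^ 2 = 0 := h1
    simpa [z] using this
  rw [h3, norm_zero] at h2
  linarith [a_pos 0]

theorem w_le : ∀ᵐ x ∂μ, ‖b x + w x‖ ≤ 1 ∧ ‖b x - w x‖ ≤ 1 := b_norm.mono fun x hx => by
  have h1 := parallelogram_law_with_norm ℂ 1 (z x)
  have h2 : ‖w x‖ = 8⁻¹ * ‖1 - z x‖ ^ 2 := by simp [w]
  rw [z_norm, norm_one] at h1
  have h3 : ‖b x‖ + ‖w x‖ ≤ 1 := by nlinarith [sq_nonneg (‖1 + z x‖ - 2)]
  exact ⟨(norm_add_le _ _).trans h3, (norm_sub_le _ _).trans h3⟩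

end Pool.Agent.H.MP_4f6fd6_an
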