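import Mathlib

set_option autoImplicit false

namespace Pool.Agent.H.MP_4f6fd6_an

open MeasureTheory ComplexConjugate
open scoped ENNReal InnerProductSpace

/-- The circle. -/
abbrev T : Type := UnitAddCircle

/-- Normalised Lebesgue measure. -/
noncomputable abbrev μ : Measure T := AddCircle.haarAddCircle

/-- The space `L²` of the circle. -/
def L2 : Type := Lp ℂ 2 μ

noncomputable instance : NormedAddCommGroup L2 := Lp.instNormedAddCommGroup

noncomputable instance : InnerProductSpace ℂ L2 := L2.innerProductSpace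

noncomputable instance : Inner ℂ L2 := InnerProductSpace.toInner

/-- The function `z ^ n`. -/
noncomputable def e (n : ℤ) : L2 := fourierLp 2 n

/-- A representative of an element of `L²`. -/
noncomputable def rep (f : L2) : T → ℂ := f.1

/-- The Hardy space as a subspace of `L²`: orthogonal to all negative powers of `z`. -/
noncomputable def H2 : Submodule ℂ L2 := (Submodule.span ℂ (e '' {n : ℤ | n < 0}))ᗮ

/-- The Hardy space as a type. -/
def Hd : Type := H2

noncomputable instance : NormedAddCommGroup Hd := Submodule.normedAddCommGroup H2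

noncomputable instance : InnerProductSpace ℂ Hd := Submodule.innerProductSpace H2

noncomputable instance : Inner ℂ Hd := InnerProductSpace.toInner

/-- The boundary function of an element of the Hardy space. -/
noncomputable def fn (f : Hd) : T → ℂ := rep f.1

/-- Boundary functions of bounded analytic functions. -/
def IsHinf (b : T → ℂ) : Prop := MemLp b ⊤ μ ∧ ∀ n : ℤ, n < 0 → fourierCoeff b n = 0

/-- `A` is the Toeplitz operator with symbol `φ`. -/
def IsToep (φ : T → ℂ) (A : Hd →L[ℂ] Hd) : Prop :=
  ∀ f g : Hd, ⟪g, A f⟫_ℂ = ∫ x, conj (fn g x) * (φ x * fn f x) ∂μ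

/-- `S` is the positive square root of `1 - A B`. -/
def IsRoot (S A B : Hd →L[ℂ] Hd) : Prop := S.IsPositive ∧ ∀ f, S (S f) = f - A (B f)

/-- The capacity in the range space of `S`. -/
noncomputable def cap (S : Hd →L[ℂ] Hd) (Q : ℝ → Prop) (E : Set T) : ℝ≥0∞ :=
  ⨅ (g : Hd) (_ : ∀ h, S h = 0 → ⟪h, g⟫_ℂ = 0) (U : Set T) (_ : IsOpen U) (_ : E ⊆ U)
    (_ : ∀ᵐ x ∂μ, x ∈ U → Q ‖fn (S g) x‖), ‖g‖ₑ ^ 2

end Pool.Agent.H.MP_4f6fd6_an
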